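import Pool.Agent.Helper85_Idx.Stmts

/-!
# FCHI: the mask of a located context as a Boolean function on positions
-/

set_option autoImplicit false

namespace Pool.Agent.Idx.H4

open Pool.Agent.Idx

/-- number of changes of a list of Booleans preceded by `a` and followed by `false` -/
def cnt : Bool → List Bool → ℕ
  | a, [] => if a then 1 else 0
  | a, b :: L => (if a = b then 0 else 1) + cnt b L

theorem cnt_tri (a b : Bool) (L : List Bool) :
    cnt a L ≤ (if a = b then 0 else 1) + cnt b L := by
  cases L with
  | nil => cases a <;> cases b <;> simp [cnt]
  | cons c L => cases a <;> cases b <;> cases c <;> simp [cnt] <;> omega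

theorem cnt_rep (n : ℕ) (b : Bool) (L : List Bool) :
    ∀ a, cnt a (List.replicate n b ++ L) ≤ (if a = b then 0 else 1) + cnt b L := by
  induction n with
  | zero => intro a; simpa using cnt_tri a b L
  | succ n ih =>
    intro a
    have h := ih b
    rw [if_pos rfl, Nat.zero_add] at h
    rw [List.replicate_succ, List.cons_append]
    simp only [cnt]
    omega

theorem chg_cnt (L : List Bool) : ∀ (χ : ℕ → Bool) (a : Bool), (∀ j, χ j = L.getD j false) →
    (if a = χ 0 then 0 else 1) + chg χ L.length = cnt a L := by
  induction L with
  | nil =>
    intro χ a h
    have h0 : χ 0 = false := by rw [h]; rfl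
    rw [h0]
    cases a <;> simp [cnt, chg]
  | cons b L ih =>
    intro χ a h
    have h0 : χ 0 = b := by rw [h]; rfl
    have h1 : ∀ j, (fun j => χ (j + 1)) j = L.getD j false := by
      intro j
      show χ (j + 1) = _
      rw [h]
      rfl
    have h2 := ih (fun j => χ (j + 1)) b h1
    have h3 : chg χ (b :: L).length = (if b = χ (0 + 1) then 0 else 1) +
        chg (fun j => χ (j + 1)) L.length := by
      unfold chg
      rw [List.length_cons]
      rw [Finset.card_filter, Finset.card_filter, Finset.sum_range_succ', h0, add_comm]
      congr 1
      by_cases hb : b = χ (0 + 1)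
      · rw [if_neg (by simpa using hb), if_pos hb]
      · rw [if_pos (by simpa using hb), if_neg hb]
    rw [h0, h3, cnt, ← h2]

theorem cnt_mask {T : Type} {Γ : Gram T} (c : List (Item Γ)) (L : List Bool) :
    ∀ s, cnt true (mask c ++ L) ≤ 2 * (holes s c).length + cnt true L := by
  induction c with
  | nil => intro s; simp [mask, holes]
  | cons x c ih =>
    intro s
    rcases x with t | ⟨A, u, b⟩
    · have h1 := ih (s + 1)
      have h2 : mask (Sum.inl t :: c : List (Item Γ)) = true :: mask c := by simp [mask, imask]
      rw [h2]
      simp only [List.cons_append, cnt, holes, if_true]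
      omega
    · have h1 := ih (s + u.length)
      have h2 : mask (Sum.inr (A, u, b) :: c : List (Item Γ)) =
          List.replicate u.length (!b) ++ mask c := by simp [mask, imask]
      rw [h2, List.append_assoc]
      have h3 := cnt_rep u.length (!b) (mask c ++ L) true
      have h4 := cnt_tri (!b) true (mask c ++ L)
      cases b with
      | true =>
        simp only [holes, List.length_cons]
        simp only [Bool.not_true] at h3 h4 ⊢
        simp only [Bool.true_eq_false, Bool.false_eq_true, if_false] at h3 h4
        omega
      | false =>
        simp only [holes]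
        simp only [Bool.not_false] at h3 h4 ⊢
        simp only [if_true] at h3
        omega

theorem mask_length {T : Type} {Γ : Gram T} (c : List (Item Γ)) :
    (mask c).length = (flat c).length := by
  unfold mask flat
  rw [List.length_flatten, List.length_flatten, List.map_map, List.map_map]
  congr 1
  apply List.map_congr_left
  intro x _
  rcases x with t | ⟨A, u, b⟩ <;> simp [imask, iword]

theorem msum_append (μ : ℕ → ℝ) (L M : List Bool) :
    ∀ s, msum μ s (L ++ M) = msum μ s L + msum μ (s + L.length) M := by
  induction L with
  | nil => intro s; simp [msum]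
  | cons b L ih =>
    intro s
    simp only [List.cons_append, msum, List.length_cons]
    rw [ih (s + 1), show s + 1 + L.length = s + (L.length + 1) by omega]
    ring

theorem msum_rep (μ : ℕ → ℝ) (n : ℕ) : ∀ s, msum μ s (List.replicate n false) = 0 := by
  induction n with
  | zero => intro s; rfl
  | succ n ih => intro s; simp [List.replicate_succ, msum, ih]

theorem msum_sum (μ : ℕ → ℝ) (L : List Bool) : ∀ (s : ℕ) (χ : ℕ → Bool),
    (∀ j, χ j = L.getD j false) →
    ∑ j ∈ (Finset.range L.length).filter (fun j => χ j = true), μ (s + j) = msum μ s L := by
  induction L with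
  | nil => intro s χ _; simp [msum]
  | cons b L ih =>
    intro s χ h
    have h0 : χ 0 = b := by rw [h]; rfl
    have h1 : ∀ j, (fun j => χ (j + 1)) j = L.getD j false := by
      intro j
      show χ (j + 1) = _
      rw [h]
      rfl
    have h2 := ih (s + 1) (fun j => χ (j + 1)) h1
    rw [Finset.sum_filter] at h2 ⊢
    rw [List.length_cons, Finset.sum_range_succ', msum, ← h2, add_comm, h0, add_zero]
    congr 1
    apply Finset.sum_congr rfl
    intro j _
    rw [show s + (j + 1) = s + 1 + j by omega]

/-- the sum of a letter weight over the places where a mask is true -/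
def ks {T : Type} (v : T → ℤ) : List Bool → List T → ℤ
  | b :: L, x :: w => (if b then v x else 0) + ks v L w
  | _, _ => 0

theorem ks_sum {T : Type} (v : T → ℤ) (L : List Bool) : ∀ (w : List T) (χ : ℕ → Bool),
    L.length = w.length → (∀ j, χ j = L.getD j false) →
    ∑ j ∈ (Finset.range w.length).filter (fun j => χ j = true), vat v w j = ks v L w := by
  induction L with
  | nil =>
    intro w χ hl _
    have : w = [] := List.length_eq_zero_iff.mp hl.symm
    subst this
    simp [ks]
  | cons b L ih =>
    intro w χ hl h
    cases w with
    | nil => simp at hl
    | cons x w =>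
      have h0 : χ 0 = b := by rw [h]; rfl
      have h1 : ∀ j, (fun j => χ (j + 1)) j = L.getD j false := by
        intro j
        show χ (j + 1) = _
        rw [h]
        rfl
      have h2 := ih w (fun j => χ (j + 1)) (by simpa using hl) h1
      rw [Finset.sum_filter] at h2 ⊢
      rw [List.length_cons, Finset.sum_range_succ', ks, ← h2, add_comm, h0]
      congr 1

theorem ks_append {T : Type} (v : T → ℤ) (L : List Bool) : ∀ (w : List T) (L' : List Bool)
    (w' : List T), L.length = w.length → ks v (L ++ L') (w ++ w') = ks v L w + ks v L' w' := by
  induction L with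
  | nil =>
    intro w L' w' hl
    have : w = [] := List.length_eq_zero_iff.mp hl.symm
    subst this
    simp [ks]
  | cons b L ih =>
    intro w L' w' hl
    cases w with
    | nil => simp at hl
    | cons x w =>
      simp only [List.cons_append, ks]
      rw [ih w L' w' (by simpa using hl)]
      ring

theorem ks_false {T : Type} (v : T → ℤ) (w : List T) :
    ks v (List.replicate w.length false) w = 0 := by
  induction w with
  | nil => rfl
  | cons x w ih => simp [List.replicate_succ, ks, ih]

theorem ks_true {T : Type} (v : T → ℤ) (w : List T) :
    ks v (List.replicate w.length true) w = vs v w := by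
  induction w with
  | nil => rfl
  | cons x w ih => simp [List.replicate_succ, ks, ih, vs]

theorem ks_mask {T : Type} {Γ : Gram T} (v : T → ℤ) (c : List (Item Γ)) :
    ks v (mask c) (flat c) = kv v c := by
  induction c with
  | nil => rfl
  | cons x c ih =>
    rcases x with t | ⟨A, u, b⟩
    · have h2 : mask (Sum.inl t :: c : List (Item Γ)) = true :: mask c := by simp [mask, imask]
      have h3 : flat (Sum.inl t :: c : List (Item Γ)) = t :: flat c := by simp [flat, iword]
      rw [h2, h3]
      simp [ks, kv, ih]
    · have h2 : mask (Sum.inr (A, u, b) :: c : List (Item Γ)) =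
          List.replicate u.length (!b) ++ mask c := by simp [mask, imask]
      have h3 : flat (Sum.inr (A, u, b) :: c : List (Item Γ)) = u ++ flat c := by
        simp [flat, iword]
      rw [h2, h3, ks_append _ _ _ _ _ (by simp), ih]
      cases b with
      | true => simp [ks_false, kv]
      | false => simp [ks_true, kv]

/-- FCHI -/
theorem fchi : FchiStmt := by
  intro T Γ X Z c μ v χ hχ
  have hlen : (fmask X Z c).length = (X ++ flat c ++ Z).length := by
    unfold fmask
    simp [mask_length]
  refine ⟨hlen, ?_, ?_, ?_⟩
  · rw [← hlen]
    have h1 := chg_cnt (fmask X Z c) χ false hχ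
    have h2 : cnt false (fmask X Z c) ≤ 2 * ((holes X.length c).length + 1) := by
      unfold fmask
      rw [List.append_assoc]
      have e1 := cnt_rep X.length false (mask c ++ List.replicate Z.length false) false
      have e2 := cnt_tri false true (mask c ++ List.replicate Z.length false)
      have e3 := cnt_mask c (List.replicate Z.length false) X.length
      have e4 := cnt_rep Z.length false [] true
      rw [List.append_nil] at e4
      simp only [Bool.true_eq_false, Bool.false_eq_true, if_false, if_true] at e1 e2 e4
      have e5 : cnt false [] = 0 := rfl
      omega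
    omega
  · rw [← hlen]
    have h1 := msum_sum μ (fmask X Z c) 0 χ hχ
    simp only [Nat.zero_add] at h1
    rw [h1]
    unfold fmask
    rw [List.append_assoc, msum_append, msum_append, msum_rep, msum_rep, List.length_replicate]
    simp
  · rw [ks_sum v (fmask X Z c) (X ++ flat c ++ Z) χ hlen hχ]
    unfold fmask
    rw [List.append_assoc, List.append_assoc, ks_append _ _ _ _ _ (by simp),
      ks_append _ _ _ _ _ (mask_length c), ks_false, ks_false, ks_mask]
    simp

end Pool.Agent.Idx.H4
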