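import Pool.Agent.Helper85_Idx.Stmts

/-!
# FRAME: the frame theorem
-/

set_option autoImplicit false

namespace Pool.Agent.Idx.H4

open Pool.Agent.Idx

theorem sl_mid {T : Type} (P u Q : List T) :
    sl (P ++ u ++ Q) P.length (P.length + u.length) = u := by
  unfold sl
  rw [List.append_assoc, List.drop_left, Nat.add_sub_cancel_left, List.take_left]

theorem word_length (S : Setup) {V : Type} {m : ℕ} (h : V → Fin m → Bool)
    (segs : List (Seg V S.T)) :
    (word S h segs).length = start S m segs segs.length := by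
  unfold word start
  rw [List.length_flatten, List.map_map, List.take_length]
  congr 1
  apply List.map_congr_left
  intro a _
  cases a with
  | pay e b => cases b <;> simp [segw, slen]
  | con u => simp [segw, slen]

theorem item_loc {T : Type} {Γ : Gram T} (Big : ℕ → ℕ → Prop) (c : List (Item Γ)) :
    ∀ (X Z : List T), Flags Big X.length c → ∀ (E : Γ.N) (u : List T) (b : Bool),
      Sum.inr (E, u, b) ∈ c → ∃ P Q : List T, X ++ flat c ++ Z = P ++ u ++ Q ∧
        (b = true ↔ Big P.length (P.length + u.length)) := by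
  induction c with
  | nil => intro X Z _ E u b hm; simp at hm
  | cons a c ih =>
    intro X Z hF E u b hm
    rcases a with t | ⟨E0, u0, b0⟩
    · have hm' : (Sum.inr (E, u, b) : Item Γ) ∈ c := by simpa using hm
      have hF' : Flags Big (X ++ [t]).length c := by
        rw [List.length_append]; exact hF
      obtain ⟨P, Q, h1, h2⟩ := ih (X ++ [t]) Z hF' E u b hm'
      refine ⟨P, Q, ?_, h2⟩
      rw [← h1]
      simp [flat, iword]
    · rcases List.mem_cons.mp hm with he | hm'
      · have he' : (E, u, b) = (E0, u0, b0) := Sum.inr.inj he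
        obtain ⟨rfl, rfl, rfl⟩ : E = E0 ∧ u = u0 ∧ b = b0 := by
          simpa [Prod.ext_iff] using he'
        refine ⟨X, flat c ++ Z, ?_, hF.1⟩
        simp [flat, iword]
      · have hF' : Flags Big (X ++ u0).length c := by
          rw [List.length_append]; exact hF.2
        obtain ⟨P, Q, h1, h2⟩ := ih (X ++ u0) Z hF' E u b hm'
        refine ⟨P, Q, ?_, h2⟩
        rw [← h1]
        simp [flat, iword]

/-- the holes lie in the word -/
theorem holes_bd {T : Type} {Γ : Gram T} (c : List (Item Γ)) :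
    ∀ (s : ℕ) (x : ℕ × Γ.N × List T), x ∈ holes s c →
      s ≤ x.1 ∧ x.1 + x.2.2.length ≤ s + (flat c).length := by
  induction c with
  | nil => intro s x hx; simp [holes] at hx
  | cons a c ih =>
    intro s x hx
    rcases a with t | ⟨E0, u0, b0⟩
    · have := ih (s + 1) x (by simpa [holes] using hx)
      have h2 : (flat (Sum.inl t :: c : List (Item Γ))).length = 1 + (flat c).length := by
        simp [flat, iword]; omega
      omega
    · have h2 : (flat (Sum.inr (E0, u0, b0) :: c : List (Item Γ))).length =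
          u0.length + (flat c).length := by
        simp [flat, iword]
      cases b0 with
      | true =>
        rcases List.mem_cons.mp (by simpa only [holes] using hx) with he | hx'
        · subst he
          simp only
          omega
        · have := ih (s + u0.length) x hx'
          omega
      | false =>
        have := ih (s + u0.length) x (by simpa only [holes] using hx)
        omega

/-- the tiny words -/
def TWs (S : Setup) {V : Type} (p l : ℕ) (segs : List (Seg V S.T)) : Set (List S.T) :=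
  {w : List S.T | ∃ (h : V → Fin (p * l) → Bool) (s t : ℕ), s ≤ t ∧
    t ≤ (word S h segs).length ∧ ¬ BigI S p l segs s t ∧ w = sl (word S h segs) s t}

/-- the type of the data -/
abbrev Dt (S : Setup) (Γ : Gram S.T) (V : Type) (p l k K n : ℕ)
    (segs : List (Seg V S.T)) : Type :=
  Fin (n + 1) × Fin (n + 1) × Γ.N × Γ.F ×
    (Fin (3 * k) → Option (Fin (n + 1) × Γ.N × Fin (n + 1))) ×
    (Γ.N → Option (TWs S p l segs)) × (V × Bool × Fin K × Fin K)

/-- `d` is a possible value of the data of `h` -/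
def IsDat (S : Setup) (Γ : Gram S.T) {V : Type} (p l k K n : ℕ) (segs : List (Seg V S.T))
    (h : V → Fin (p * l) → Bool) (d : Dt S Γ V p l k K n segs) : Prop :=
  ∃ (X Z : List S.T) (σ : List Γ.F) (c : List (Item Γ)),
    word S h segs = X ++ flat c ++ Z ∧ X.length = d.1.val ∧ (flat c).length = d.2.1.val ∧
    (∃ m, D Γ m [Sum.inr d.2.2.1] [d.2.2.2.1] (form c)) ∧ Fill σ c ∧
    (∀ w ∈ Lang Γ d.2.2.1 (d.2.2.2.1 :: σ), val S.ev w = val S.ev (flat c)) ∧
    (∀ E u, Sum.inr (E, u, false) ∈ c → u ∈ TWs S p l segs) ∧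
    (holes X.length c).length ≤ 3 * k ∧
    (∀ j : Fin (3 * k), (d.2.2.2.2.1 j).map (fun x => (x.1.val, x.2.1, x.2.2.val)) =
      ((holes X.length c)[j.val]?).map (fun x => (x.1, x.2.1, x.2.2.length))) ∧
    (∀ E : Γ.N, (∀ u : TWs S p l segs, d.2.2.2.2.2.1 E = some u → u.val ∈ Lang Γ E σ) ∧
      (d.2.2.2.2.2.1 E = none → ∀ u ∈ TWs S p l segs, u ∉ Lang Γ E σ)) ∧
    segs[d.2.2.2.2.2.2.2.2.1.val]? = some (Seg.pay d.2.2.2.2.2.2.1 d.2.2.2.2.2.2.2.1) ∧
    segs[d.2.2.2.2.2.2.2.2.2.val]? = some (Seg.pay d.2.2.2.2.2.2.1 (!d.2.2.2.2.2.2.2.1)) ∧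
    (∀ j, start S (p * l) segs d.2.2.2.2.2.2.2.2.1.val ≤ j →
      j < start S (p * l) segs d.2.2.2.2.2.2.2.2.1.val + p * l →
      (fmask X Z c).getD j false = true) ∧
    (∀ j, start S (p * l) segs d.2.2.2.2.2.2.2.2.2.val ≤ j →
      j < start S (p * l) segs d.2.2.2.2.2.2.2.2.2.val + p * l →
      (fmask X Z c).getD j false = false)

/-- the key step: the data and the values off the mismatched edge determine the payload -/
theorem dat_inj (hSgl : SglStmt) (hMix : MixStmt) (hPig : PigStmt) (hFchi : FchiStmt)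
    (S : Setup) (Γ : Gram S.T) {V : Type} (p l k K n : ℕ) (segs : List (Seg V S.T))
    (hT : Twice S segs)
    (h h' : V → Fin (p * l) → Bool) (d : Dt S Γ V p l k K n segs)
    (h1 : IsDat S Γ p l k K n segs h d) (h2 : IsDat S Γ p l k K n segs h' d)
    (hoff : ∀ e, e ≠ d.2.2.2.2.2.2.1 → h' e = h e) : h' = h := by
  obtain ⟨X, Z, σ, c, hW, hX, hc, hD, hF, hS, hTw, hh, hhol, hs, hi, hi', hm, hm'⟩ := h1
  obtain ⟨X', Z', σ', c', hW', hX', hc', hD', hF', hS', hTw', hh', hhol', hs', _, _, _, _⟩ := h2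
  have hZ : Z.length = Z'.length := by
    have e1 := congrArg List.length hW
    have e2 := congrArg List.length hW'
    rw [word_length, List.length_append, List.length_append] at e1 e2
    omega
  have hhm : (holes X.length c).map (fun x => (x.1, x.2.1, x.2.2.length)) =
      (holes X'.length c').map (fun x => (x.1, x.2.1, x.2.2.length)) := by
    apply List.ext_getElem?
    intro j
    rw [List.getElem?_map, List.getElem?_map]
    by_cases hj : j < 3 * k
    · have e1 := hhol ⟨j, hj⟩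
      have e2 := hhol' ⟨j, hj⟩
      exact e1.symm.trans e2
    · rw [List.getElem?_eq_none (by omega), List.getElem?_eq_none (by omega)]
  have hmix := hMix S.T S.H S.grp S.ev Γ d.2.2.1 d.2.2.2.1 σ X Z X' Z' c c' hD' hF hS
    (by omega) (by omega) hZ hhm (by
      intro E u hu
      have hu1 : u ∈ TWs S p l segs := hTw' E u hu
      have hu2 : u ∈ Lang Γ E σ' := hF' E u false hu
      cases hd : d.2.2.2.2.2.1 E with
      | none => exact absurd hu2 ((hs' E).2 hd u hu1)
      | some u0 =>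
        refine ⟨u0.val, (hs E).1 u0 hd, ?_⟩
        exact hSgl S.T S.H S.grp S.ev Γ d.2.2.1 d.2.2.2.1 σ' c' hD' hF' hS' E u false hu
          u0.val ((hs' E).1 u0 hd))
  rw [← hW, ← hW'] at hmix
  refine hPig S V (p * l) segs h h' (fmask X Z c) d.2.2.2.2.2.2.1 d.2.2.2.2.2.2.2.1
    d.2.2.2.2.2.2.2.2.1.val d.2.2.2.2.2.2.2.2.2.val hT hi hi' hoff ?_ hm hm' hmix
  rw [hW]
  exact (hFchi S.T Γ X Z c (fun _ => 0) (fun _ => 0) (fun j => (fmask X Z c).getD j false)
    (fun _ => rfl)).1

theorem BigI_mono (S : Setup) {V : Type} (p l : ℕ) (segs : List (Seg V S.T)) :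
    ∀ s t s' t', s' ≤ s → t ≤ t' → BigI S p l segs s t → BigI S p l segs s' t' := by
  rintro s t s' t' h1 h2 ⟨i, e, b, j, a1, a2, a3, a4⟩
  exact ⟨i, e, b, j, a1, a2, by omega, by omega⟩

theorem card_Dt (S : Setup) (Γ : Gram S.T) (V : Type) (_ : Finite V) (p l k K n : ℕ)
    (segs : List (Seg V S.T)) (hk : Nat.card Γ.N = k) (hfin : (TWs S p l segs).Finite) :
    Nat.card (Dt S Γ V p l k K n segs) =
      ((n + 1) * (n + 1) * k * Nat.card Γ.F * (((n + 1) * k * (n + 1) + 1) ^ (3 * k)) *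
        (((TWs S p l segs).ncard + 1) ^ k) * (Nat.card V * 2 * K * K)) := by
  have := Γ.finN
  have := Γ.finF
  have : Finite (TWs S p l segs) := hfin
  have hfin' : ∀ m : ℕ, Nat.card (Fin m) = m := fun m => by simp
  have hb : Nat.card Bool = 2 := by simp
  have hc : Nat.card (TWs S p l segs) = (TWs S p l segs).ncard := rfl
  simp only [Dt, Nat.card_prod, Nat.card_fun, Finite.card_option, hfin', hb, hk, hc]
  ring

/-- the conclusion of the module REP for a fixed grammar and a fixed constant -/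
def RepC (T : Type) (Γ : Gram T) (q C : ℕ) : Prop := ∀ (G : Type) (_ : Group G)
  (ev : T → G) (v : T → ℤ) (B : ℕ) (A : Γ.N) (f : Γ.F) (σ : List Γ.F) (c : List (Item Γ))
  (s : ℕ), (∀ t, |v t| ≤ 1) → 1 ≤ B →
  (∀ w w' : List T, val ev w = val ev w' → vs v w = vs v w') →
  (∃ n, D Γ n [Sum.inr A] [f] (form c)) → Fill σ c →
  (∀ w ∈ Lang Γ A (f :: σ), val ev w = val ev (flat c)) → (holes s c).length ≤ q →
  (∀ E u, Sum.inr (E, u, false) ∈ c → |vs v u| ≤ B) →
  |kv v c| ≤ C * B

theorem exists_dat (hBal : BalStmt) (hFchi : FchiStmt) (S : Setup) (Γ : Gram S.T)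
    (hΓ : Lang Γ Γ.S [Γ.bot] = {w | val S.ev w = 1}) (k r C p : ℕ) (hk : Nat.card Γ.N = k)
    (hr1 : ∀ A α, (A, α) ∈ Γ.R1 → α.length ≤ r)
    (hr3 : ∀ A f α, (A, f, α) ∈ Γ.R3 → α.length ≤ r)
    (hC : RepC S.T Γ (3 * k) C)
    (K B : ℕ) (V : Type) (segs : ℕ → List (Seg V S.T))
    (μ : (l : ℕ) → (V → Fin (p * l) → Bool) → ℕ → ℝ) (v : S.T → ℤ)
    (hd : FrameData S (r + 3 * k + 1) p K B V segs μ v)
    (l n : ℕ) (hl : 1 ≤ l) (hn : start S (p * l) (segs l) (segs l).length = n)
    (h : V → Fin (p * l) → Bool) (hg : ¬ Four S p l (segs l) h)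
    (hfc : ¬ FrameConc S (r + 3 * k + 1) (2 * (3 * k + 1)) C p B V (segs l) l (μ l) v) :
    ∃ d, IsDat S Γ p l k K n (segs l) h d := by
  classical
  obtain ⟨X, Z, A, f, σ, c, hW, hD, hF, hS, hFl, hh, hm1, hm2⟩ := hBal S.T S.H S.grp S.ev Γ k r
    (word S h (segs l)) (μ l h) (BigI S p l (segs l)) hk hr1 hr3
    (by rw [hΓ]; exact fun w hw => hw) (by rw [hΓ]; exact hd.one l h) (hd.μ0 l h)
    (hd.μ1 l h hl) (BigI_mono S p l (segs l))
    (fun s t h1 h2 h3 => by
      have := hd.μt l h s t hl h1 h2 h3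
      push_cast at this ⊢
      exact this)
    (fun j => by
      have := hd.μj l h j hl
      push_cast at this ⊢
      exact this)
    (fun s₁ t₁ s₂ t₂ s₃ t₃ s₄ t₄ a1 a2 a3 a4 a5 a6 a7 a8 b1 b2 b3 b4 c1 c2 c3 =>
      hg ⟨s₁, t₁, s₂, t₂, s₃, t₃, s₄, t₄, a1, a2, a3, a4, a5, a6, a7, a8, b1, b2, b3, b4,
        c1, c2, c3⟩)
  have hlen : (word S h (segs l)).length = n := by rw [word_length, hn]
  have hlen2 : X.length + (flat c).length + Z.length = n := by
    rw [← hlen, hW, List.length_append, List.length_append]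
  obtain ⟨χ, hχ⟩ : ∃ χ : ℕ → Bool, ∀ j, χ j = (fmask X Z c).getD j false := ⟨_, fun _ => rfl⟩
  obtain ⟨f1, f2, f3, f4⟩ := hFchi S.T Γ X Z c (μ l h) v χ hχ
  rw [← hW] at f2 f3 f4
  have htiny : ∀ E u, Sum.inr (E, u, false) ∈ c → ∃ s t, s ≤ t ∧
      t ≤ (word S h (segs l)).length ∧ ¬ BigI S p l (segs l) s t ∧
      u = sl (word S h (segs l)) s t := by
    intro E u hu
    obtain ⟨P, Q, h1, h2⟩ := item_loc (BigI S p l (segs l)) c X Z hFl E u false hu
    refine ⟨P.length, P.length + u.length, by omega, ?_, ?_, ?_⟩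
    · rw [hW, h1, List.length_append, List.length_append]
      omega
    · intro hb
      exact absurd (h2.mpr hb) (by simp)
    · rw [hW, h1, sl_mid]
  have hkv : |kv v c| ≤ C * B := by
    refine hC S.H S.grp S.ev v B A f σ c X.length hd.v1 hd.B1 hd.vc hD hF hS hh ?_
    intro E u hu
    obtain ⟨s, t, a1, a2, a3, a4⟩ := htiny E u hu
    rw [a4]
    exact hd.vt l h s t hl a1 a2 a3
  have hM : Mism S (p * l) (segs l) χ := by
    by_contra hM
    apply hfc
    refine ⟨h, χ, by omega, ?_, ?_, hM, ?_⟩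
    · rw [f3]
      push_cast
      exact hm1
    · rw [f3]
      exact hm2
    · rw [f4]
      exact hkv
  obtain ⟨e, b, i, i', hi, hi', m1, m2⟩ := hM
  have hiK : i < K := by
    have h1 := (List.getElem?_eq_some_iff.mp hi).1
    have h2 := hd.num l
    omega
  have hiK' : i' < K := by
    have h1 := (List.getElem?_eq_some_iff.mp hi').1
    have h2 := hd.num l
    omega
  refine ⟨(⟨X.length, by omega⟩, ⟨(flat c).length, by omega⟩, A, f,
    (fun j => ((holes X.length c)[j.val]?).map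
      (fun x => (Fin.ofNat (n + 1) x.1, x.2.1, Fin.ofNat (n + 1) x.2.2.length))),
    (fun E => if hE : ∃ u : TWs S p l (segs l), u.val ∈ Lang Γ E σ then some hE.choose
      else none),
    (e, b, ⟨i, hiK⟩, ⟨i', hiK'⟩)), X, Z, σ, c, hW, rfl, rfl, hD, hF, hS, ?_, hh, ?_, ?_,
    hi, hi', ?_, ?_⟩
  · intro E u hu
    obtain ⟨s, t, a1, a2, a3, a4⟩ := htiny E u hu
    exact ⟨h, s, t, a1, a2, a3, a4⟩
  · intro j
    simp only [Option.map_map]
    cases hx : (holes X.length c)[j.val]? with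
    | none => rfl
    | some x =>
      have hxm : x ∈ holes X.length c := List.mem_of_getElem? hx
      have hb := holes_bd c X.length x hxm
      simp only [Option.map_some, Function.comp, Fin.ofNat]
      rw [Nat.mod_eq_of_lt (by omega), Nat.mod_eq_of_lt (by omega)]
  · intro E
    constructor
    · intro u hu
      simp only at hu
      split_ifs at hu with hE
      rw [← Option.some.inj hu]
      exact hE.choose_spec
    · intro hu u hu1 hu2
      simp only at hu
      split_ifs at hu with hE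
      exact hE ⟨⟨u, hu1⟩, hu2⟩
  · intro j j1 j2
    rw [← hχ]
    exact m1 j j1 j2
  · intro j j1 j2
    rw [← hχ]
    exact m2 j j1 j2

theorem bound_rhs {α : Type} (s : Set α) (hs : s.Finite) (f : α → ℕ) :
    ∃ r : ℕ, ∀ x ∈ s, f x ≤ r := by
  obtain ⟨r, hr⟩ := (hs.image f).bddAbove
  exact ⟨r, fun x hx => hr ⟨x, hx, rfl⟩⟩

/-- FRAME -/
theorem frame (hBal : BalStmt) (hRep : RepStmt) (hSgl : SglStmt) (hMix : MixStmt)
    (hUniq : UniqStmt) (hTiny : TinyStmt) (hPig : PigStmt) (hFchi : FchiStmt)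
    (hFcnt : FcntStmt) (hFexp : FexpStmt) : FrameStmt := by
  classical
  intro S Γ hΓ
  have := Γ.finN
  have := Γ.finF
  obtain ⟨ra, hra⟩ := bound_rhs Γ.R1 Γ.fin1 (fun x => x.2.length)
  obtain ⟨rb, hrb⟩ := bound_rhs Γ.R3 Γ.fin3 (fun x => x.2.2.length)
  obtain ⟨r, hr1, hr3⟩ : ∃ r : ℕ, (∀ A α, (A, α) ∈ Γ.R1 → α.length ≤ r) ∧
      (∀ A f α, (A, f, α) ∈ Γ.R3 → α.length ≤ r) :=
    ⟨max ra rb, fun A α h => le_trans (hra _ h) (le_max_left _ _),
      fun A f α h => le_trans (hrb _ h) (le_max_right _ _)⟩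
  obtain ⟨k, hk⟩ : ∃ k, Nat.card Γ.N = k := ⟨_, rfl⟩
  obtain ⟨C, hC⟩ := hRep S.T Γ (3 * k)
  refine ⟨r + 3 * k + 1, 2 * (3 * k + 1), C, 2 * k + 1, by omega, by omega, ?_⟩
  intro K B V hV segs μ v hd
  obtain ⟨l₁, hl₁⟩ := hUniq S V hV (2 * k + 1) K segs (by omega) hd.twice hd.len hd.num hd.dist
  obtain ⟨l₂, hl₂⟩ := hFexp k K (Nat.card Γ.F) (Nat.card V)
  refine ⟨max (max l₁ l₂) 1, fun l hl => ?_⟩
  have hl1 : l₁ ≤ l := le_trans (le_trans (le_max_left _ _) (le_max_left _ _)) hl
  have hl2 : l₂ ≤ l := le_trans (le_trans (le_max_right _ _) (le_max_left _ _)) hl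
  have hl3 : 1 ≤ l := le_trans (le_max_right _ _) hl
  by_contra hfc
  obtain ⟨n, hn⟩ : ∃ n, start S ((2 * k + 1) * l) (segs l) (segs l).length = n := ⟨_, rfl⟩
  have hex : ∀ h : V → Fin ((2 * k + 1) * l) → Bool, ¬ Four S (2 * k + 1) l (segs l) h →
      ∃ d, IsDat S Γ (2 * k + 1) l k K n (segs l) h d := fun h hg =>
    exists_dat hBal hFchi S Γ hΓ k r C (2 * k + 1) hk hr1 hr3 hC K B V segs μ v hd l n hl3 hn
      h hg hfc
  obtain ⟨hT1, hT2⟩ := hTiny S V hV (2 * k + 1) l (segs l) (by omega) hl3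
  have hcount := hl₁ l hl1
  -- there is a good payload
  have hadd : Nat.card {h : V → Fin ((2 * k + 1) * l) → Bool //
        Four S (2 * k + 1) l (segs l) h} +
      Nat.card {h : V → Fin ((2 * k + 1) * l) → Bool //
        ¬ Four S (2 * k + 1) l (segs l) h} = Nat.card (V → Fin ((2 * k + 1) * l) → Bool) := by
    rw [← Nat.card_sum]
    exact Nat.card_congr (Equiv.sumCompl _)
  have hpos : 0 < Nat.card (V → Fin ((2 * k + 1) * l) → Bool) := Nat.card_pos
  have hgood : 0 < Nat.card {h : V → Fin ((2 * k + 1) * l) → Bool //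
      ¬ Four S (2 * k + 1) l (segs l) h} := by omega
  obtain ⟨⟨h0, hh0⟩⟩ := (Nat.card_pos_iff.mp hgood).1
  obtain ⟨d0, hd0⟩ := hex h0 hh0
  have : Finite (TWs S (2 * k + 1) l (segs l)) := hT1
  let dat : (V → Fin ((2 * k + 1) * l) → Bool) → Dt S Γ V (2 * k + 1) l k K n (segs l) :=
    fun h => if hg : ¬ Four S (2 * k + 1) l (segs l) h then (hex h hg).choose else d0
  have hdat : ∀ h, ¬ Four S (2 * k + 1) l (segs l) h →
      IsDat S Γ (2 * k + 1) l k K n (segs l) h (dat h) := by
    intro h hg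
    have : dat h = (hex h hg).choose := dif_pos hg
    rw [this]
    exact (hex h hg).choose_spec
  have hfin := hFcnt V hV ((2 * k + 1) * l) (Dt S Γ V (2 * k + 1) l k K n (segs l))
    inferInstance {h | ¬ Four S (2 * k + 1) l (segs l) h} dat
    (fun d => d.2.2.2.2.2.2.1)
    (fun h hg h' hg' he hoff => dat_inj hSgl hMix hPig hFchi S Γ (2 * k + 1) l k K n (segs l)
      (hd.twice l) h h' (dat h) (hdat h hg) (by rw [he]; exact hdat h' hg') hoff)
    (by
      have : Nat.card ({h | ¬ Four S (2 * k + 1) l (segs l) h} :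
          Set (V → Fin ((2 * k + 1) * l) → Bool)) =
          Nat.card {h : V → Fin ((2 * k + 1) * l) → Bool //
            ¬ Four S (2 * k + 1) l (segs l) h} := rfl
      rw [this]
      omega)
  rw [card_Dt S Γ V hV (2 * k + 1) l k K n (segs l) hk hT1] at hfin
  have hexp := hl₂ l hl2 n (TWs S (2 * k + 1) l (segs l)).ncard
    (by rw [← hn]; exact hd.len l) (by rw [← hn]; exact hT2)
  omega

end Pool.Agent.Idx.H4
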