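import Pool.Agent.Helper85_Idx.Stmts
import Pool.Agent.Helper4_Idx.Frame
import Pool.Agent.Helper90_Idx.Ftw

/-!
# FCL: closed intervals in forests
-/

set_option autoImplicit false

namespace Pool.Agent.Idx.H4

open Pool.Agent.Idx

section General

variable (S : Setup) {V : Type}

theorem start_succ (m : ℕ) (L : List (Seg V S.T)) (i : ℕ) (x : Seg V S.T)
    (h : L[i]? = some x) : start S m L (i + 1) = start S m L i + slen S m x := by
  unfold start
  rw [List.take_add_one, h]
  simp

theorem start_mono (m : ℕ) (L : List (Seg V S.T)) (i j : ℕ) (h : i ≤ j) :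
    start S m L i ≤ start S m L j := by
  obtain ⟨d, rfl⟩ := Nat.exists_eq_add_of_le h
  clear h
  induction d with
  | zero => exact le_refl _
  | succ d ih =>
    refine le_trans ih ?_
    rw [← add_assoc]
    cases hx : L[i + d]? with
    | none =>
      have := List.getElem?_eq_none_iff.mp hx
      unfold start
      rw [List.take_of_length_le this, List.take_of_length_le (by omega)]
    | some x =>
      rw [start_succ S m L (i + d) x hx]
      omega

/-- the weights of the constant segments -/
def lw {T : Type} (v : T → ℤ) : List (Seg V T) → List ℤ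
  | [] => []
  | Seg.pay _ _ :: L => lw v L
  | Seg.con u :: L => vs v u :: lw v L

theorem lw_append {T : Type} (v : T → ℤ) (L M : List (Seg V T)) :
    lw v (L ++ M) = lw v L ++ lw v M := by
  induction L with
  | nil => rfl
  | cons a L ih => cases a <;> simp [lw, ih]

theorem vs_append {T : Type} (v : T → ℤ) (w w' : List T) : vs v (w ++ w') = vs v w + vs v w' := by
  simp [vs]

theorem vs_zero {T : Type} (v : T → ℤ) (w : List T) (h : ∀ x ∈ w, v x = 0) : vs v w = 0 := by
  unfold vs
  apply List.sum_eq_zero
  intro y hy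
  obtain ⟨x, hx, rfl⟩ := List.mem_map.mp hy
  exact h x hx

theorem pay_zero {m : ℕ} (v : S.T → ℤ) (vp : ∀ x, v (S.pl x) = 0) (vn : ∀ x, v (S.ni x) = 0)
    (h : V → Fin m → Bool) (e : V) (b : Bool) : ∀ x ∈ segw S h (Seg.pay e b), v x = 0 := by
  intro x hx
  cases b with
  | false =>
    obtain ⟨y, _, rfl⟩ := List.mem_map.mp (by simpa only [segw] using hx)
    exact vp y
  | true =>
    have hx' := List.mem_reverse.mp (by simpa only [segw] using hx)
    obtain ⟨y, _, rfl⟩ := List.mem_map.mp hx'
    exact vn y

theorem word_append {m : ℕ} (h : V → Fin m → Bool) (L M : List (Seg V S.T)) :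
    word S h (L ++ M) = word S h L ++ word S h M := by
  simp [word]

theorem vs_word {m : ℕ} (v : S.T → ℤ) (vp : ∀ x, v (S.pl x) = 0) (vn : ∀ x, v (S.ni x) = 0)
    (h : V → Fin m → Bool) (L : List (Seg V S.T)) : vs v (word S h L) = (lw v L).sum := by
  induction L with
  | nil => rfl
  | cons a L ih =>
    have h1 : word S h (a :: L) = segw S h a ++ word S h L := by simp [word]
    rw [h1, vs_append, ih]
    cases a with
    | pay e b =>
      rw [vs_zero v _ (pay_zero S v vp vn h e b)]
      simp [lw]
    | con u => simp [lw, segw]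

theorem take_word {m : ℕ} (h : V → Fin m → Bool) (L : List (Seg V S.T)) (i : ℕ)
    (x : Seg V S.T) (hx : L[i]? = some x) (s : ℕ) (h1 : start S m L i ≤ s)
    (h2 : s ≤ start S m L (i + 1)) :
    (word S h L).take s = word S h (L.take i) ++ (segw S h x).take (s - start S m L i) := by
  obtain ⟨hi, hx'⟩ := List.getElem?_eq_some_iff.mp hx
  have hL : L = L.take i ++ x :: L.drop (i + 1) := by
    rw [← hx', List.cons_getElem_drop_succ, List.take_append_drop]
  have hlen : (word S h (L.take i)).length = start S m L i := by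
    rw [word_length]
    unfold start
    rw [List.take_length]
  have hlx : (segw S h x).length = slen S m x := by
    cases x with
    | pay e b => cases b <;> simp [segw, slen]
    | con u => simp [segw, slen]
  have h3 : word S h L = word S h (L.take i) ++ (segw S h x ++ word S h (L.drop (i + 1))) := by
    conv_lhs => rw [hL]
    rw [word_append]
    congr 1
  rw [start_succ S m L i x hx] at h2
  rw [h3, List.take_append, hlen, List.take_of_length_le (by omega), List.take_append,
    show s - start S m L i - (segw S h x).length = 0 by omega, List.take_zero, List.append_nil]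

/-- the index of the last segment that starts at or before `s` -/
theorem exists_idx (m : ℕ) (L : List (Seg V S.T)) (s : ℕ) :
    ∃ i ≤ L.length, start S m L i ≤ s ∧ ∀ i' ≤ L.length, start S m L i' ≤ s → i' ≤ i := by
  classical
  refine ⟨Nat.findGreatest (fun i => start S m L i ≤ s) L.length,
    Nat.findGreatest_le _, ?_, ?_⟩
  · exact Nat.findGreatest_spec (P := fun i => start S m L i ≤ s) (m := 0) (Nat.zero_le _)
      (by simp [start])
  · intro i' h1 h2
    exact Nat.le_findGreatest h1 h2

theorem vs_take {m : ℕ} (v : S.T → ℤ) (vp : ∀ x, v (S.pl x) = 0) (vn : ∀ x, v (S.ni x) = 0)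
    (h : V → Fin m → Bool) (L : List (Seg V S.T)) (s i : ℕ) (hi : i ≤ L.length)
    (h1 : start S m L i ≤ s) (h2 : ∀ i' ≤ L.length, start S m L i' ≤ s → i' ≤ i)
    (hs : ∀ i u, L[i]? = some (Seg.con u) → start S m L i < s → s < start S m L (i + 1) →
      False) :
    vs v ((word S h L).take s) = (lw v (L.take i)).sum := by
  rcases Nat.lt_or_ge i L.length with hlt | hge
  · have hx : L[i]? = some L[i] := List.getElem?_eq_getElem hlt
    have h3 : s < start S m L (i + 1) := by
      by_contra hc
      have := h2 (i + 1) hlt (by omega)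
      omega
    rw [take_word S h L i _ hx s h1 h3.le, vs_append, vs_word S v vp vn]
    have h4 : vs v ((segw S h L[i]).take (s - start S m L i)) = 0 := by
      cases hc : L[i] with
      | pay e b =>
        apply vs_zero
        intro x hx
        exact pay_zero S v vp vn h e b x (List.mem_of_mem_take hx)
      | con u =>
        rcases Nat.lt_or_ge (start S m L i) s with h5 | h5
        · exact absurd h3 (fun h3 => hs i u (by rw [hx, hc]) h5 h3)
        · rw [show s - start S m L i = 0 by omega]
          rfl
    rw [h4, add_zero]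
  · have hi' : i = L.length := by omega
    subst hi'
    rw [List.take_length, ← vs_word S v vp vn h]
    rw [List.take_of_length_le]
    rw [word_length]
    exact h1

end General

section Closed

variable (S : Setup) {V : Type}

theorem blk_ge (p l : ℕ) (L : List (Seg V S.T)) (i : ℕ) (b : Bool) (j : ℕ) :
    start S (p * l) L i ≤ blk S p l L i b j := Nat.le_add_right _ _

theorem blk_le (p l : ℕ) (L : List (Seg V S.T)) (i : ℕ) (e : V) (b : Bool) (j : ℕ)
    (hi : L[i]? = some (Seg.pay e b)) (hj : j < p) :
    blk S p l L i b j + l ≤ start S (p * l) L (i + 1) := by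
  rw [start_succ S (p * l) L i _ hi]
  have h0 : slen S (p * l) (Seg.pay e b : Seg V S.T) = p * l := rfl
  rw [h0]
  unfold blk
  have h1 : (if b = true then p - 1 - j else j) + 1 ≤ p := by
    split_ifs <;> omega
  have h2 := Nat.mul_le_mul_right l h1
  rw [Nat.add_mul, Nat.one_mul] at h2
  omega

/-- every constant segment is surrounded by the two occurrences of one payload -/
def Surr {T : Type} (L : List (Seg V T)) : Prop := ∀ (i : ℕ) (u : List T), L[i]? = some (Seg.con u) →
  u ≠ [] ∧ ∃ e, 1 ≤ i ∧ L[i - 1]? = some (Seg.pay e false) ∧ L[i + 1]? = some (Seg.pay e true)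

/-- between the two occurrences of a payload there is a constant segment -/
def Betw {T : Type} (L : List (Seg V T)) : Prop := ∀ (i i' : ℕ) (e : V),
  L[i]? = some (Seg.pay e false) → L[i']? = some (Seg.pay e true) →
  ∃ i'' u, i < i'' ∧ i'' < i' ∧ L[i'']? = some (Seg.con u)

theorem closed_left (p l : ℕ) (L : List (Seg V S.T)) (hp : 1 ≤ p) (hS : Surr L) (s t : ℕ)
    (hB : BigI S p l L s t) (hC : ClosedI S p l L s t) (i : ℕ) (u : List S.T)
    (hi : L[i]? = some (Seg.con u)) (h1 : start S (p * l) L i < s)
    (h2 : s < start S (p * l) L (i + 1)) : False := by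
  obtain ⟨_, e, hi1, he, he'⟩ := hS i u hi
  obtain ⟨i0, e0, b0, j0, a1, a2, a3, a4⟩ := hB
  have hlt : i < i0 := by
    rcases Nat.lt_trichotomy i i0 with h | h | h
    · exact h
    · subst h
      rw [hi] at a1
      simp at a1
    · exfalso
      have e1 := blk_le S p l L i0 e0 b0 j0 a1 a2
      have e2 := start_mono S (p * l) L (i0 + 1) i (by omega)
      omega
  have e1 := start_mono S (p * l) L (i + 1) i0 (by omega)
  have e2 := blk_ge S p l L i0 b0 j0
  have e3 : blk S p l L (i + 1) true (p - 1) = start S (p * l) L (i + 1) := by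
    unfold blk
    simp
  have e4 : blk S p l L (i - 1) (!true) (p - 1) + l = start S (p * l) L i := by
    have h3 := start_succ S (p * l) L (i - 1) _ he
    rw [show i - 1 + 1 = i by omega] at h3
    rw [h3]
    unfold blk slen
    simp only [Bool.not_true, Bool.false_eq_true, if_false]
    have h4 : (p - 1) * l + l = p * l := by
      rw [← Nat.succ_mul, Nat.succ_eq_add_one, Nat.sub_add_cancel hp]
    omega
  have h5 := hC (i + 1) (i - 1) e true (p - 1) he' he (by omega) (by omega) (by omega)
  omega

theorem closed_right (p l : ℕ) (L : List (Seg V S.T)) (hp : 1 ≤ p) (hS : Surr L) (s t : ℕ)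
    (hB : BigI S p l L s t) (hC : ClosedI S p l L s t) (i : ℕ) (u : List S.T)
    (hi : L[i]? = some (Seg.con u)) (h1 : start S (p * l) L i < t)
    (h2 : t < start S (p * l) L (i + 1)) : False := by
  obtain ⟨_, e, hi1, he, he'⟩ := hS i u hi
  obtain ⟨i0, e0, b0, j0, a1, a2, a3, a4⟩ := hB
  have hlt : i0 < i := by
    rcases Nat.lt_trichotomy i0 i with h | h | h
    · exact h
    · subst h
      rw [hi] at a1
      simp at a1
    · exfalso
      have e1 := blk_ge S p l L i0 b0 j0
      have e2 := start_mono S (p * l) L (i + 1) i0 (by omega)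
      omega
  have e1 := start_mono S (p * l) L (i0 + 1) i (by omega)
  have e2 := blk_le S p l L i0 e0 b0 j0 a1 a2
  have e3 : blk S p l L (i + 1) true (p - 1) = start S (p * l) L (i + 1) := by
    unfold blk
    simp
  have e4 : blk S p l L (i - 1) false (p - 1) + l = start S (p * l) L i := by
    have h3 := start_succ S (p * l) L (i - 1) _ he
    rw [show i - 1 + 1 = i by omega] at h3
    rw [h3]
    unfold blk slen
    simp only [Bool.false_eq_true, if_false]
    have h4 : (p - 1) * l + l = p * l := by
      rw [← Nat.succ_mul, Nat.succ_eq_add_one, Nat.sub_add_cancel hp]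
    omega
  have h5 := hC (i - 1) (i + 1) e false (p - 1) he he' (by omega) (by omega) (by omega)
  rw [Bool.not_false] at h5
  omega

theorem closed_con (p l : ℕ) (L : List (Seg V S.T)) (hP : ∀ (i : ℕ) (e : V) (b : Bool), L[i]? = some (Seg.pay e b) →
    ∃ i' : ℕ, L[i']? = some (Seg.pay e (!b))) (hBt : Betw L) (s t : ℕ)
    (hB : BigI S p l L s t) (hC : ClosedI S p l L s t) :
    ∃ (i : ℕ) (u : List S.T), L[i]? = some (Seg.con u) ∧ s ≤ start S (p * l) L i ∧
      start S (p * l) L (i + 1) ≤ t := by
  obtain ⟨i0, e0, b0, j0, a1, a2, a3, a4⟩ := hB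
  obtain ⟨i1, hi1⟩ := hP i0 e0 b0 a1
  obtain ⟨c1, c2⟩ := hC i0 i1 e0 b0 j0 a1 hi1 a2 a3 a4
  have f1 := blk_ge S p l L i0 b0 j0
  have f2 := blk_le S p l L i0 e0 b0 j0 a1 a2
  have f3 := blk_ge S p l L i1 (!b0) j0
  have f4 := blk_le S p l L i1 e0 (!b0) j0 hi1 a2
  cases b0 with
  | false =>
    obtain ⟨i, u, g1, g2, g3⟩ := hBt i0 i1 e0 a1 hi1
    have k1 := start_mono S (p * l) L (i0 + 1) i (by omega)
    have k2 := start_mono S (p * l) L (i + 1) i1 (by omega)
    exact ⟨i, u, g3, by omega, by omega⟩
  | true =>
    obtain ⟨i, u, g1, g2, g3⟩ := hBt i1 i0 e0 hi1 a1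
    have k1 := start_mono S (p * l) L (i1 + 1) i (by omega)
    have k2 := start_mono S (p * l) L (i + 1) i0 (by omega)
    exact ⟨i, u, g3, by omega, by omega⟩

theorem sum_sl (w : List ℤ) (a b : ℕ) (h : a ≤ b) :
    (w.take b).sum - (w.take a).sum = (sl w a b).sum := by
  unfold sl
  have : w.take b = w.take a ++ (w.drop a).take (b - a) := by
    conv_lhs => rw [show b = a + (b - a) by omega]
    rw [List.take_add]
  rw [this, List.sum_append]
  ring

theorem vs_sl {T : Type} (v : T → ℤ) (w : List T) (a b : ℕ) (h : a ≤ b) :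
    vs v (sl w a b) = vs v (w.take b) - vs v (w.take a) := by
  unfold sl
  have : w.take b = w.take a ++ (w.drop a).take (b - a) := by
    conv_lhs => rw [show b = a + (b - a) by omega]
    rw [List.take_add]
  rw [this, vs_append]
  ring

theorem lw_take_le {T : Type} (v : T → ℤ) (L : List (Seg V T)) (i j : ℕ) (h : i ≤ j) :
    (lw v (L.take i)).length ≤ (lw v (L.take j)).length := by
  have : L.take j = L.take i ++ (L.drop i).take (j - i) := by
    conv_lhs => rw [show j = i + (j - i) by omega]
    rw [List.take_add]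
  rw [this, lw_append, List.length_append]
  omega

theorem lw_take {T : Type} (v : T → ℤ) (L : List (Seg V T)) (i : ℕ) :
    lw v (L.take i) = (lw v L).take (lw v (L.take i)).length := by
  have h : lw v L = lw v (L.take i) ++ lw v (L.drop i) := by
    rw [← lw_append, List.take_append_drop]
  conv_rhs => rw [h]
  rw [List.take_left]

/-- disjoint big closed intervals, general version -/
theorem closed_dist (p l : ℕ) (L : List (Seg V S.T)) (hp : 1 ≤ p) (hS : Surr L)
    (hP : ∀ (i : ℕ) (e : V) (b : Bool), L[i]? = some (Seg.pay e b) → ∃ i' : ℕ, L[i']? = some (Seg.pay e (!b)))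
    (hBt : Betw L) (v : S.T → ℤ) (vp : ∀ x, v (S.pl x) = 0) (vn : ∀ x, v (S.ni x) = 0)
    (vc : ∀ w w' : List S.T, val S.ev w = val S.ev w' → vs v w = vs v w')
    (hd : ∀ i j i' j', i < j → j ≤ i' → i' < j' → j' ≤ (lw v L).length →
      (sl (lw v L) i j).sum ≠ (sl (lw v L) i' j').sum) : ClosedDist S p l L := by
  intro h s t s' t' h1 h2 h3 h4 hB hB' hC hC' hval
  have hv := vc _ _ hval
  obtain ⟨a, ha1, ha2, ha3⟩ := exists_idx S (p * l) L s
  obtain ⟨b, hb1, hb2, hb3⟩ := exists_idx S (p * l) L t
  obtain ⟨a', ha1', ha2', ha3'⟩ := exists_idx S (p * l) L s'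
  obtain ⟨b', hb1', hb2', hb3'⟩ := exists_idx S (p * l) L t'
  have va := vs_take S v vp vn h L s a ha1 ha2 ha3 (closed_left S p l L hp hS s t hB hC)
  have vb := vs_take S v vp vn h L t b hb1 hb2 hb3 (closed_right S p l L hp hS s t hB hC)
  have va' := vs_take S v vp vn h L s' a' ha1' ha2' ha3'
    (closed_left S p l L hp hS s' t' hB' hC')
  have vb' := vs_take S v vp vn h L t' b' hb1' hb2' hb3'
    (closed_right S p l L hp hS s' t' hB' hC')
  have key : ∀ s t a b : ℕ, a ≤ L.length → b ≤ L.length → start S (p * l) L a ≤ s →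
      (∀ i' ≤ L.length, start S (p * l) L i' ≤ t → i' ≤ b) → BigI S p l L s t →
      ClosedI S p l L s t → (lw v (L.take a)).length < (lw v (L.take b)).length := by
    intro s t a b ha hb ha2 hb3 hB hC
    obtain ⟨i, u, g1, g2, g3⟩ := closed_con S p l L hP hBt s t hB hC
    obtain ⟨hu, _⟩ := hS i u g1
    have hil : i < L.length := (List.getElem?_eq_some_iff.mp g1).1
    have k1 := start_succ S (p * l) L i _ g1
    have k2 : 0 < slen S (p * l) (Seg.con u : Seg V S.T) := List.length_pos_iff.mpr hu
    have k3 : a ≤ i := by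
      by_contra hc
      have := start_mono S (p * l) L (i + 1) a (by omega)
      omega
    have k4 : i + 1 ≤ b := hb3 (i + 1) hil g3
    have k5 := lw_take_le v L a i k3
    have k6 := lw_take_le v L (i + 1) b k4
    have k7 : (lw v (L.take (i + 1))).length = (lw v (L.take i)).length + 1 := by
      rw [List.take_add_one, g1, lw_append, List.length_append]
      rfl
    omega
  have l1 := key s t a b ha1 hb1 ha2 hb3 hB hC
  have l2 := key s' t' a' b' ha1' hb1' ha2' hb3' hB' hC'
  have l3 : b ≤ a' := ha3' b hb1 (by omega)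
  have l4 := lw_take_le v L b a' l3
  have l5 : (lw v (L.take b')).length ≤ (lw v L).length := by
    have := lw_take_le v L b' L.length hb1'
    rwa [List.take_length] at this
  refine hd (lw v (L.take a)).length (lw v (L.take b)).length (lw v (L.take a')).length
    (lw v (L.take b')).length l1 l4 l2 l5 ?_
  rw [← sum_sl _ _ _ l1.le, ← sum_sl _ _ _ l2.le, ← lw_take, ← lw_take, ← lw_take, ← lw_take,
    ← va, ← vb, ← va', ← vb', ← vs_sl v _ s t h1, ← vs_sl v _ s' t' h3]
  exact hv

end Closed

section Forest

variable {V T : Type}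

theorem surr_append {L M : List (Seg V T)} (hL : Surr L) (hM : Surr M) : Surr (L ++ M) := by
  intro i u h
  rcases Nat.lt_or_ge i L.length with hi | hi
  · rw [List.getElem?_append_left hi] at h
    obtain ⟨h1, e, h2, h3, h4⟩ := hL i u h
    have h5 := (List.getElem?_eq_some_iff.mp h4).1
    exact ⟨h1, e, h2, by rw [List.getElem?_append_left (by omega)]; exact h3,
      by rw [List.getElem?_append_left h5]; exact h4⟩
  · rw [List.getElem?_append_right hi] at h
    obtain ⟨h1, e, h2, h3, h4⟩ := hM _ u h
    refine ⟨h1, e, by omega, ?_, ?_⟩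
    · rw [List.getElem?_append_right (by omega), ← h3]
      congr 1
      omega
    · rw [List.getElem?_append_right (by omega), ← h4]
      congr 1
      omega

theorem surr_pay (e : V) (b : Bool) : Surr ([Seg.pay e b] : List (Seg V T)) := by
  intro i u h
  rcases i with _ | i
  · simp at h
  · simp at h

theorem surr_nil : Surr ([] : List (Seg V T)) := by
  intro i u h
  simp at h

theorem zw_ne (z z' : T) (x : ℤ) (hx : x ≠ 0) : zw z z' x ≠ [] := by
  unfold zw
  intro h
  have := congrArg List.length h
  simp at this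
  exact hx this

theorem surr_tsegs (z z' : T) (t : BT V) (h : ∀ x ∈ leaves t, x ≠ 0) :
    Surr (tsegs z z' t) := by
  induction t with
  | leaf e m =>
    intro i u hi
    rcases i with _ | _ | _ | i
    · simp [tsegs] at hi
    · have hu : zw z z' m = u := by simpa [tsegs] using hi
      rw [← hu]
      exact ⟨zw_ne z z' m (h m (by simp [leaves])), e, le_refl _, by simp [tsegs],
        by simp [tsegs]⟩
    · simp [tsegs] at hi
    · simp [tsegs] at hi
  | node e l r ihl ihr =>
    have h1 : ∀ x ∈ leaves l, x ≠ 0 := fun x hx => h x (by simp [leaves, hx])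
    have h2 : ∀ x ∈ leaves r, x ≠ 0 := fun x hx => h x (by simp [leaves, hx])
    exact surr_append (surr_pay e false)
      (surr_append (surr_append (ihl h1) (ihr h2)) (surr_pay e true))

theorem surr_fsegs (z z' : T) (ts : List (BT V)) (h : ∀ x ∈ (ts.map leaves).flatten, x ≠ 0) :
    Surr (fsegs z z' ts) := by
  induction ts with
  | nil => exact surr_nil
  | cons t ts ih =>
    have h1 : fsegs z z' (t :: ts) = tsegs z z' t ++ fsegs z z' ts := by simp [fsegs]
    rw [h1]
    exact surr_append (surr_tsegs z z' t (fun x hx => h x (by simp [hx])))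
      (ih (fun x hx => h x (by
        rw [List.map_cons, List.flatten_cons, List.mem_append]
        exact Or.inr hx)))

/-- the closing occurrence of a payload is not before the opening one -/
def Rp (a b : Seg V T) : Prop := ∀ e, a = Seg.pay e true → b ≠ Seg.pay e false

/-- no closing occurrence follows immediately after an opening one -/
def Rc (a b : Seg V T) : Prop := ∀ e e', a = Seg.pay e false → b ≠ Seg.pay e' true

theorem mem_tsegs (z z' : T) (t : BT V) (e : V) (b : Bool) (h : Seg.pay e b ∈ tsegs z z' t) :
    e ∈ edges t := by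
  induction t with
  | leaf e' m =>
    simp only [tsegs, List.mem_cons, Seg.pay.injEq, reduceCtorEq, List.not_mem_nil, or_false,
      false_or] at h
    simp only [edges, List.mem_singleton]
    rcases h with h | h <;> exact h.1
  | node e' l r ihl ihr =>
    simp only [tsegs, List.mem_cons, List.mem_append, Seg.pay.injEq, List.not_mem_nil,
      or_false] at h
    simp only [edges, List.mem_cons, List.mem_append]
    rcases h with h | (h | h) | h
    · exact Or.inl h.1
    · exact Or.inr (Or.inl (ihl h))
    · exact Or.inr (Or.inr (ihr h))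
    · exact Or.inl h.1

theorem mem_fsegs (z z' : T) (ts : List (BT V)) (e : V) (b : Bool)
    (h : Seg.pay e b ∈ fsegs z z' ts) : e ∈ (ts.map edges).flatten := by
  induction ts with
  | nil => simp [fsegs] at h
  | cons t ts ih =>
    have h1 : fsegs z z' (t :: ts) = tsegs z z' t ++ fsegs z z' ts := by simp [fsegs]
    rw [h1, List.mem_append] at h
    rw [List.map_cons, List.flatten_cons, List.mem_append]
    rcases h with h | h
    · exact Or.inl (mem_tsegs z z' t e b h)
    · exact Or.inr (ih h)

theorem pw_tsegs (z z' : T) (t : BT V) (h : (edges t).Nodup) :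
    (tsegs z z' t).Pairwise Rp := by
  induction t with
  | leaf e m =>
    simp [tsegs, Rp]
  | node e l r ihl ihr =>
    rw [edges, List.nodup_cons, List.nodup_append] at h
    obtain ⟨_, hl, hr, hlr⟩ := h
    rw [tsegs, List.pairwise_cons, List.pairwise_append, List.pairwise_append]
    refine ⟨?_, ⟨ihl hl, ihr hr, ?_⟩, by simp, ?_⟩
    · intro b _ e' h1
      simp at h1
    · intro a ha b hb e' h1 h2
      subst h1
      subst h2
      exact hlr e' (mem_tsegs z z' l e' true ha) e' (mem_tsegs z z' r e' false hb) rfl
    · intro a _ b hb e' _ h2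
      subst h2
      simp at hb

theorem pw_fsegs (z z' : T) (ts : List (BT V)) (h : ((ts.map edges).flatten).Nodup) :
    (fsegs z z' ts).Pairwise Rp := by
  induction ts with
  | nil => simp [fsegs]
  | cons t ts ih =>
    have h1 : fsegs z z' (t :: ts) = tsegs z z' t ++ fsegs z z' ts := by simp [fsegs]
    rw [List.map_cons, List.flatten_cons, List.nodup_append] at h
    obtain ⟨ht, hts, hd⟩ := h
    rw [h1, List.pairwise_append]
    refine ⟨pw_tsegs z z' t ht, ih hts, ?_⟩
    intro a ha b hb e' h1 h2
    subst h1
    subst h2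
    exact hd e' (mem_tsegs z z' t e' true ha) e' (mem_fsegs z z' ts e' false hb) rfl

theorem last_tsegs (z z' : T) (t : BT V) : ∀ x ∈ (tsegs z z' t).getLast?,
    ∃ e, x = Seg.pay e true := by
  intro x hx
  cases t with
  | leaf e m =>
    have : Seg.pay e true = x := by simpa [tsegs] using hx
    exact ⟨e, this.symm⟩
  | node e l r =>
    have h1 : (tsegs z z' (BT.node e l r)).getLast? = some (Seg.pay e true) := by
      have : tsegs z z' (BT.node e l r) =
        (Seg.pay e false :: (tsegs z z' l ++ tsegs z z' r)) ++ [Seg.pay e true] := by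
        simp [tsegs]
      rw [this, List.getLast?_append]
      rfl
    rw [h1] at hx
    exact ⟨e, (Option.some.inj hx).symm⟩

theorem head_tsegs (z z' : T) (t : BT V) : ∀ x ∈ (tsegs z z' t).head?,
    ∃ e, x = Seg.pay e false := by
  intro x hx
  cases t with
  | leaf e m => exact ⟨e, (Option.some.inj hx).symm⟩
  | node e l r => exact ⟨e, (Option.some.inj hx).symm⟩

theorem ch_tsegs (z z' : T) (t : BT V) : (tsegs z z' t).IsChain Rc := by
  induction t with
  | leaf e m =>
    simp [tsegs, Rc]
  | node e l r ihl ihr =>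
    have hne : ∀ t : BT V, tsegs z z' t ≠ [] := by
      intro t
      cases t <;> simp [tsegs]
    rw [tsegs, List.isChain_cons, List.isChain_append, List.isChain_append]
    refine ⟨?_, ⟨ihl, ihr, ?_⟩, by simp, ?_⟩
    · intro y hy e1 e2 _ h2
      subst h2
      rw [List.append_assoc, List.head?_append_of_ne_nil _ (hne l)] at hy
      obtain ⟨e3, h3⟩ := head_tsegs z z' l _ hy
      simp at h3
    · intro x hx y _ e1 e2 h1 _
      subst h1
      obtain ⟨e3, h3⟩ := last_tsegs z z' l _ hx
      simp at h3
    · intro x hx y _ e1 e2 h1 _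
      subst h1
      rw [List.getLast?_append_of_ne_nil _ (hne r)] at hx
      obtain ⟨e3, h3⟩ := last_tsegs z z' r _ hx
      simp at h3

theorem ch_fsegs (z z' : T) (ts : List (BT V)) : (fsegs z z' ts).IsChain Rc := by
  induction ts with
  | nil => simp [fsegs]
  | cons t ts ih =>
    have h1 : fsegs z z' (t :: ts) = tsegs z z' t ++ fsegs z z' ts := by simp [fsegs]
    rw [h1, List.isChain_append]
    refine ⟨ch_tsegs z z' t, ih, ?_⟩
    intro x hx y _ e1 e2 h1 _
    subst h1
    obtain ⟨e3, h3⟩ := last_tsegs z z' t _ hx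
    simp at h3

theorem betw_fsegs (z z' : T) (ts : List (BT V)) (h : ((ts.map edges).flatten).Nodup) :
    Betw (fsegs z z' ts) := by
  intro i i' e h1 h2
  have hpw := pw_fsegs z z' ts h
  have hch := ch_fsegs z z' ts
  rw [List.pairwise_iff_getElem] at hpw
  rw [List.isChain_iff_getElem] at hch
  obtain ⟨hi, hi2⟩ := List.getElem?_eq_some_iff.mp h1
  obtain ⟨hi', hi2'⟩ := List.getElem?_eq_some_iff.mp h2
  have hlt : i < i' := by
    rcases Nat.lt_trichotomy i i' with hc | hc | hc
    · exact hc
    · subst hc
      rw [h1] at h2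
      simp at h2
    · exact absurd hi2 (hpw i' i hi' hi hc e hi2')
  by_contra hno
  have key : ∀ d, i + d < i' → ∃ e', (fsegs z z' ts)[i + d]? = some (Seg.pay e' false) := by
    intro d
    induction d with
    | zero => intro _; exact ⟨e, h1⟩
    | succ d ih =>
      intro hd
      obtain ⟨e', he'⟩ := ih (by omega)
      obtain ⟨g1, g2⟩ := List.getElem?_eq_some_iff.mp he'
      have hl : i + d + 1 < (fsegs z z' ts).length := by omega
      have hx : (fsegs z z' ts)[i + d + 1]? = some (fsegs z z' ts)[i + d + 1] :=
        List.getElem?_eq_getElem hl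
      cases hc : (fsegs z z' ts)[i + d + 1] with
      | con u =>
        rw [hc] at hx
        exact absurd ⟨i + d + 1, u, by omega, by omega, hx⟩ hno
      | pay e2 b2 =>
        rw [hc] at hx
        cases b2 with
        | false => exact ⟨e2, hx⟩
        | true => exact absurd hc (hch (i + d) hl e' e2 g2)
  obtain ⟨e', he'⟩ := key (i' - 1 - i) (by omega)
  rw [show i + (i' - 1 - i) = i' - 1 by omega] at he'
  obtain ⟨g1, g2⟩ := List.getElem?_eq_some_iff.mp he'
  have h3 := hch (i' - 1) (by omega) e' e g2
  apply h3
  have h4 : i' - 1 + 1 = i' := by omega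
  simp only [h4]
  exact hi2'

end Forest

theorem vs_zw (S : ZSetup) (x : ℤ) : vs S.v (zw S.z S.z' x) = x := by
  unfold vs zw
  rw [List.map_replicate, List.sum_replicate]
  split_ifs with h
  · rw [S.vz]
    simp
    omega
  · rw [S.vz']
    simp
    have := abs_of_neg (show x < 0 by omega)
    omega

theorem lw_tsegs (S : ZSetup) {V : Type} (t : BT V) :
    lw S.v (tsegs S.z S.z' t) = leaves t := by
  induction t with
  | leaf e m => simp [tsegs, lw, leaves, vs_zw]
  | node e l r ihl ihr => simp [tsegs, lw, lw_append, leaves, ihl, ihr]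

theorem lw_fsegs (S : ZSetup) {V : Type} (ts : List (BT V)) :
    lw S.v (fsegs S.z S.z' ts) = (ts.map leaves).flatten := by
  induction ts with
  | nil => rfl
  | cons t ts ih =>
    have h1 : fsegs S.z S.z' (t :: ts) = tsegs S.z S.z' t ++ fsegs S.z S.z' ts := by simp [fsegs]
    rw [h1, lw_append, ih, lw_tsegs]
    rfl

/-- FCL -/
theorem fcl : FclStmt := by
  intro S V ts p l hp _ hE hd hx
  have hT := H90.ftw S V ts hE
  apply closed_dist S.toSetup p l (fsegs S.z S.z' ts) hp (surr_fsegs S.z S.z' ts hx)
    (fun i e b h => hT.pair i e b h) (betw_fsegs S.z S.z' ts hE) S.v S.vp S.vn S.vc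
  rw [lw_fsegs]
  exact hd

end Pool.Agent.Idx.H4
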